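import Pool.Agent.R212.Fg6

/-!
# MP_49e099_an, Q1: the multiplicity statement is false

For every `N ≥ 2` and `s ∈ (1/2,1)` there are a smooth bounded domain `Ω` (the unit ball) and a
bounded `c ≥ 0`, `c ≢ 0`, such that for all `μ ∈ L^∞(Ω)` with `μ ≥ μ₁ > 0`, all `f ∈ L^m(Ω)`,
`m > N/(2s)`, `f ≥ 0`, `f ≢ 0`, and all `λ > 0`, the problem `(P_{λ,c})` has no weak solution.
-/

namespace Pool.Agent.Results.MP_49e099_an.NoWeakSolution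

open MeasureTheory Pool.Agent.R212.FGrad

theorem result (N : ℕ) (hN : 2 ≤ N) (s : ℝ) (hs : 1 / 2 < s) (hs1 : s < 1) :
    ∃ (Ω : Set (E N)) (c : E N → ℝ), IsC2Domain Ω ∧ MemLp c ⊤ (volume.restrict Ω) ∧
      (∀ᵐ x ∂(volume.restrict Ω), 0 ≤ c x) ∧ ¬ (c =ᵐ[volume.restrict Ω] 0) ∧
      ∀ (μ f : E N → ℝ) (m : ℝ), MemLp μ ⊤ (volume.restrict Ω) →
        (∃ μ₁ : ℝ, 0 < μ₁ ∧ ∀ᵐ x ∂(volume.restrict Ω), μ₁ ≤ μ x) →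
        (N : ℝ) / (2 * s) < m → MemLp f (ENNReal.ofReal m) (volume.restrict Ω) →
        (∀ᵐ x ∂(volume.restrict Ω), 0 ≤ f x) → ¬ (f =ᵐ[volume.restrict Ω] 0) →
        (∀ lam : ℝ, 0 < lam → ¬ ∃ u : E N → ℝ, IsWeakSol s Ω c μ f lam u) ∧
        ¬ ∃ lam₀ : ℝ, 0 < lam₀ ∧ ∀ lam : ℝ, 0 < lam → lam < lam₀ → ∃ u v : E N → ℝ,
          MemWs0 s Ω u ∧ MemWs0 s Ω v ∧ ¬ (u =ᵐ[volume] v) ∧
          IsWeakSol s Ω c μ f lam u ∧ IsWeakSol s Ω c μ f lam v :=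
  main N hN s hs hs1

end Pool.Agent.Results.MP_49e099_an.NoWeakSolution
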